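import Pool.Agent.CRT.Stmts

/-!
# Squad CRT, row CMB: there are few concentrated curves
-/

set_option autoImplicit false

namespace Pool.Agent.CRT.H41

open Set Filter Topology MeasureTheory

noncomputable section

theorem cmb (dub : DubStmt) (low : LowStmt) (far : FarStmt) (upb : UpbStmt) : CmbStmt := by
  intro κ m hκ hm
  classical
  obtain ⟨c, hc, hdub⟩ := dub κ m hκ hm
  obtain ⟨CF, τF, hCF, hτF, hfar⟩ := far κ m (c / 4) hκ hm (by positivity)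
  obtain ⟨CU, τU, hCU, hτU, hupb⟩ := upb κ m hκ hm
  set C₂ : ℝ := 1 + 2048 * CU / c ^ 3 with hC₂
  have hC₂1 : 1 ≤ C₂ := by
    have : 0 < 2048 * CU / c ^ 3 := by positivity
    linarith
  refine ⟨max CF C₂, max τF τU, lt_of_lt_of_le hCF (le_max_left _ _), hτF.trans (le_max_left _ _), ?_⟩
  intro τ hτ Q P hFam hConc
  have hτ1 : τF ≤ τ := (le_max_left _ _).trans hτ
  have hτ2 : τU ≤ τ := (le_max_right _ _).trans hτ
  have hτ0 : 1 ≤ τ := hτF.trans hτ1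
  by_contra hcon
  push Not at hcon
  set M : ℝ := (Q.card : ℝ) with hM
  have hp19 : 0 < τ ^ 19 := by positivity
  have h1 : CF * τ ^ 19 ≤ M := (mul_le_mul_of_nonneg_right (le_max_left _ _) hp19.le).trans hcon.le
  have h2 : C₂ * τ ^ 19 < M := lt_of_le_of_lt
    (mul_le_mul_of_nonneg_right (le_max_right _ _) hp19.le) hcon
  have hMpos : 0 < M := lt_of_le_of_lt (by positivity) h2
  have hT1 : (1 : ℝ) ≤ τ ^ 10 := one_le_pow₀ hτ0
  obtain ⟨Q₁, hQ₁, hcard, hdeg⟩ := low (ℤ × ℤ) Q (fun i s s' => wt i κ (τ ^ 10) (P s - P s')) c hc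
    (fun Q' hQ' i => hdub (τ ^ 10) hT1 Q P hFam hConc Q' hQ' i)
  have hch : ∀ (i : Fin 3) (s : ℤ × ℤ), ∃ Q' : Finset (ℤ × ℤ), s ∈ Q₁ → Q' ⊆ Q ∧
      (∀ s' ∈ Q', Far i κ τ (P s - P s')) ∧
      c / 4 / 2 * M ≤ ∑ s' ∈ Q', |wt i κ (τ ^ 10) (P s - P s')| := by
    intro i s
    by_cases hs : s ∈ Q₁
    · obtain ⟨Q', h3, h4, h5⟩ := hfar τ hτ1 Q P hFam h1 s (hQ₁ hs) i (hdeg s hs i)
      exact ⟨Q', fun _ => ⟨h3, h4, h5⟩⟩
    · exact ⟨∅, fun h => absurd h hs⟩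
  choose F hF using hch
  have h3 := hupb τ hτ2 Q P hFam Q₁ hQ₁ F (fun i s hs => ⟨(hF i s hs).1, (hF i s hs).2.1⟩)
  have h4 : (Q₁.card : ℝ) * (c / 4 / 2 * M) ^ 3 ≤
      ∑ s ∈ Q₁, ∏ i, (∑ s' ∈ F i s, |wt i κ (τ ^ 10) (P s - P s')|) := by
    have h5 : ∑ s ∈ Q₁, (c / 4 / 2 * M) ^ 3 ≤
        ∑ s ∈ Q₁, ∏ i, (∑ s' ∈ F i s, |wt i κ (τ ^ 10) (P s - P s')|) := by
      refine Finset.sum_le_sum fun s hs => ?_
      have h6 : ∏ _i : Fin 3, (c / 4 / 2 * M) ≤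
          ∏ i, (∑ s' ∈ F i s, |wt i κ (τ ^ 10) (P s - P s')|) :=
        Finset.prod_le_prod (fun _ _ => by positivity) fun i _ => (hF i s hs).2.2
      rw [Finset.prod_const, Finset.card_univ, Fintype.card_fin] at h6
      exact h6
    rw [Finset.sum_const, nsmul_eq_mul] at h5
    exact h5
  have h5 : M / 4 * (c / 4 / 2 * M) ^ 3 ≤ CU * (M * τ ^ 57) :=
    ((mul_le_mul_of_nonneg_right hcard (by positivity)).trans h4).trans h3
  have h6 : M ^ 3 ≤ 2048 * CU / c ^ 3 * τ ^ 57 := by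
    have h7 : M * (c ^ 3 / 2048 * M ^ 3) ≤ M * (CU * τ ^ 57) := by
      calc M * (c ^ 3 / 2048 * M ^ 3) = M / 4 * (c / 4 / 2 * M) ^ 3 := by ring
        _ ≤ CU * (M * τ ^ 57) := h5
        _ = M * (CU * τ ^ 57) := by ring
    have h8 := le_of_mul_le_mul_left h7 hMpos
    have hc3 : 0 < c ^ 3 := by positivity
    rw [div_mul_eq_mul_div, le_div_iff₀ hc3]
    linarith
  have h7 : (C₂ * τ ^ 19) ^ 3 < M ^ 3 := pow_lt_pow_left₀ h2 (by positivity) (by norm_num)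
  have h8 : (C₂ * τ ^ 19) ^ 3 = C₂ ^ 3 * τ ^ 57 := by ring
  have h9 : C₂ ≤ C₂ ^ 3 := by
    calc C₂ = C₂ ^ 1 := (pow_one _).symm
      _ ≤ C₂ ^ 3 := pow_le_pow_right₀ hC₂1 (by norm_num)
  have h10 : 2048 * CU / c ^ 3 * τ ^ 57 ≤ C₂ ^ 3 * τ ^ 57 :=
    mul_le_mul_of_nonneg_right (by linarith) (by positivity)
  linarith

end

end Pool.Agent.CRT.H41
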