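import Pool.Agent.CRT.Stmts

/-!
# Squad CRT, row SEC: almost tangent pairs lie in a sector
-/

set_option autoImplicit false

namespace Pool.Agent.CRT.H41

open Set Filter Topology MeasureTheory

noncomputable section

/-- the arithmetic -/
theorem sec_arith (a b c x e N h h' : ℝ) (hN : 0 < N) (ha : |a| ≤ N) (hb : |b| ≤ N) (hc : |c| ≤ N)
    (hNmax : N = |a| ∨ N = |b| ∨ N = |c|) (he : |e| ≤ 1 / 2) (hx : |x - e| < 1 / 100)
    (hh : |h| ≤ N / 10 ^ 8) (hhe : h = a + b * x + c * x ^ 2) (hh'e : h' = b + 2 * c * x)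
    (hD : |b ^ 2 - 4 * a * c| ≤ N ^ 2 / 10 ^ 6) :
    0 < |c| ∧ N ≤ 3 * |c| ∧ |b + 2 * e * c| ≤ |c| / 30 ∧ |a - e ^ 2 * c| ≤ |c| / 60 := by
  have hx51 : |x| ≤ 51 / 100 := by
    have : |x| ≤ |x - e| + |e| := by
      have := abs_add_le (x - e) e
      rwa [sub_add_cancel] at this
    linarith
  have hh'2 : |h'| ≤ N / 900 := by
    have h1 : h' ^ 2 = (b ^ 2 - 4 * a * c) + 4 * c * h := by
      rw [hh'e, hhe]
      ring
    have h2 : 4 * c * h ≤ 4 * N * (N / 10 ^ 8) := by
      have : c * h ≤ |c| * |h| := by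
        rw [← abs_mul]
        exact le_abs_self _
      have h3 : |c| * |h| ≤ N * (N / 10 ^ 8) :=
        mul_le_mul hc hh (abs_nonneg _) hN.le
      nlinarith
    have h3 : b ^ 2 - 4 * a * c ≤ N ^ 2 / 10 ^ 6 := (le_abs_self _).trans hD
    have h4 : h' ^ 2 ≤ (N / 900) ^ 2 := by
      rw [h1]
      nlinarith [sq_nonneg N]
    exact abs_le_of_sq_le_sq h4 (by positivity)
  have hc0 := abs_nonneg c
  have hb2 : |b| ≤ N / 900 + 102 / 100 * |c| := by
    have h1 : b = h' - 2 * (c * x) := by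
      rw [hh'e]
      ring
    have h2 : |c * x| ≤ |c| * (51 / 100) := by
      rw [abs_mul]
      exact mul_le_mul_of_nonneg_left hx51 hc0
    have h3 : |b| ≤ |h'| + |2 * (c * x)| := by
      rw [h1]
      exact abs_sub _ _
    rw [abs_mul, abs_two] at h3
    linarith
  have hxh' : |h' * x| ≤ N / 900 * (51 / 100) := by
    rw [abs_mul]
    exact mul_le_mul hh'2 hx51 (abs_nonneg _) (by positivity)
  have ha1 : a = h - h' * x + c * x ^ 2 := by
    rw [hhe, hh'e]
    ring
  have ha2 : |a| ≤ N / 10 ^ 8 + N / 900 * (51 / 100) + 27 / 100 * |c| := by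
    have h1 : |c * x ^ 2| ≤ |c| * (27 / 100) := by
      rw [abs_mul, abs_pow]
      refine mul_le_mul_of_nonneg_left ?_ hc0
      have : |x| ^ 2 ≤ (51 / 100) ^ 2 := pow_le_pow_left₀ (abs_nonneg _) hx51 2
      norm_num at this ⊢
      linarith
    have h2 : |a| ≤ |h - h' * x| + |c * x ^ 2| := by
      rw [ha1]
      exact abs_add_le _ _
    have h3 : |h - h' * x| ≤ |h| + |h' * x| := abs_sub _ _
    linarith
  have hNc : N ≤ 103 / 100 * |c| := by
    rcases hNmax with h | h | h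
    · rw [← h] at ha2
      linarith
    · rw [← h] at hb2
      linarith
    · rw [h]
      linarith
  have hcpos : 0 < |c| := by linarith
  refine ⟨hcpos, by linarith, ?_, ?_⟩
  · have h1 : b + 2 * e * c = h' - 2 * (c * (x - e)) := by
      rw [hh'e]
      ring
    have h2 : |c * (x - e)| ≤ |c| * (1 / 100) := by
      rw [abs_mul]
      exact mul_le_mul_of_nonneg_left hx.le hc0
    have h3 : |b + 2 * e * c| ≤ |h'| + |2 * (c * (x - e))| := by
      rw [h1]
      exact abs_sub _ _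
    rw [abs_mul, abs_two] at h3
    linarith
  · have h1 : a - e ^ 2 * c = (h - h' * x) + c * ((x - e) * (x + e)) := by
      rw [ha1]
      ring
    have h2 : |x + e| ≤ 101 / 100 := by
      have := abs_add_le x e
      linarith
    have h3 : |c * ((x - e) * (x + e))| ≤ |c| * (1 / 100 * (101 / 100)) := by
      rw [abs_mul, abs_mul]
      exact mul_le_mul_of_nonneg_left (mul_le_mul hx.le h2 (abs_nonneg _) (by norm_num)) hc0
    have h4 : |a - e ^ 2 * c| ≤ |h - h' * x| + |c * ((x - e) * (x + e))| := by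
      rw [h1]
      exact abs_add_le _ _
    have h5 : |h - h' * x| ≤ |h| + |h' * x| := abs_sub _ _
    linarith

theorem ce_le (i : Fin 3) : |ce i| ≤ 1 / 2 := by
  unfold ce
  fin_cases i <;> norm_num [abs_le]

theorem sec (psi : PsiStmt) : SecStmt := by
  intro κ hκ
  refine ⟨1 + 12 * 10 ^ 8 * κ, by linarith [hκ], ?_⟩
  intro τ hτ i d hF
  obtain ⟨h1, h2, h3⟩ := hF
  have hτ1 : 1 ≤ τ := by linarith
  have hτ0 : 0 < τ := by linarith
  have hT : 0 < τ ^ 10 := by positivity
  obtain ⟨-, -, hPS, -⟩ := psi κ (τ ^ 10) hκ hT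
  -- a point of the support
  obtain ⟨x, hx1, hx2⟩ : ∃ x, chi i x ≠ 0 ∧ PS κ (τ ^ 10) (ev d x) ≠ 0 := by
    by_contra hcon
    push Not at hcon
    apply h3
    unfold wt
    have : ∀ x, chi i x * PS κ (τ ^ 10) (ev d x) = 0 := by
      intro x
      by_cases hx : chi i x = 0
      · rw [hx, zero_mul]
      · rw [hcon x hx, mul_zero]
    simp only [this]
    simp
  have hx3 : |x - ce i| < 1 / 100 := by
    by_contra hcon
    push Not at hcon
    apply hx1
    unfold chi
    have : (1 / 100 : ℝ) ^ 2 ≤ (x - ce i) ^ 2 := by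
      rw [← sq_abs (x - ce i)]
      exact pow_le_pow_left₀ (by norm_num) hcon 2
    rw [max_eq_left (by linarith)]
    norm_num
  have hh : |ev d x| < 12 * κ / τ ^ 10 := by
    by_contra hcon
    push Not at hcon
    exact hx2 (hPS _ hcon)
  set N := Nm d with hN
  have hNpos : 0 < N := by
    by_contra hcon
    push Not at hcon
    have : τ ^ 4 * N ≤ 0 := mul_nonpos_of_nonneg_of_nonpos (by positivity) hcon
    linarith
  have hh2 : |ev d x| ≤ N / 10 ^ 8 := by
    refine hh.le.trans ?_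
    rw [div_le_div_iff₀ hT (by positivity)]
    have h4 : τ ≤ τ ^ 6 := by
      calc τ = τ ^ 1 := (pow_one τ).symm
        _ ≤ τ ^ 6 := pow_le_pow_right₀ hτ1 (by norm_num)
    have h5 : 12 * κ * 10 ^ 8 ≤ τ ^ 6 := by linarith
    calc 12 * κ * 10 ^ 8 ≤ τ ^ 6 * 1 := by linarith
      _ ≤ τ ^ 6 * (τ ^ 4 * N) := mul_le_mul_of_nonneg_left h1 (by positivity)
      _ = N * τ ^ 10 := by ring
  have hmax : N = |d.1| ∨ N = |d.2.1| ∨ N = |d.2.2| := by
    rw [hN]
    unfold Nm
    rcases max_choice |d.1| (max |d.2.1| |d.2.2|) with h | h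
    · exact Or.inl h
    · rw [h]
      rcases max_choice |d.2.1| |d.2.2| with h | h
      · exact Or.inr (Or.inl h)
      · exact Or.inr (Or.inr h)
  obtain ⟨g1, g2, g3, g4⟩ := sec_arith d.1 d.2.1 d.2.2 x (ce i) N (ev d x) (d.2.1 + 2 * d.2.2 * x)
    hNpos (by rw [hN]; exact le_max_left _ _)
    (by rw [hN]; exact (le_max_left _ _).trans (le_max_right _ _))
    (by rw [hN]; exact (le_max_right _ _).trans (le_max_right _ _)) hmax (ce_le i) hx3 hh2 rfl rfl
    (by unfold Dc at h2; exact h2)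
  by_cases hc : 0 < d.2.2
  · refine ⟨1, Or.inl rfl, ?_⟩
    rw [abs_of_pos hc] at g2 g3 g4
    exact ⟨by linarith, by linarith, by linarith, by linarith⟩
  · refine ⟨-1, Or.inr rfl, ?_⟩
    have hc' : |d.2.2| = - d.2.2 := abs_of_nonpos (not_lt.1 hc)
    rw [hc'] at g1 g2 g3 g4
    exact ⟨by linarith, by linarith, by linarith, by linarith⟩

end

end Pool.Agent.CRT.H41
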