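import Pool.Agent.CRT.Stmts

/-!
# Squad CRT, row UPB: upper bound of the number of the configurations
-/

set_option autoImplicit false

namespace Pool.Agent.CRT.H41

open Set Filter Topology MeasureTheory

noncomputable section

namespace UPB

theorem nm_nonneg (d : Co) : 0 ≤ Nm d := (abs_nonneg _).trans (le_max_left _ _)

theorem nm1 (d : Co) : |d.1| ≤ Nm d := le_max_left _ _

theorem nm2 (d : Co) : |d.2.1| ≤ Nm d := (le_max_left _ _).trans (le_max_right _ _)

theorem nm3 (d : Co) : |d.2.2| ≤ Nm d := (le_max_right _ _).trans (le_max_right _ _)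

theorem nm_sub (u v : Co) : Nm (u - v) ≤ Nm u + Nm v := by
  refine max_le ?_ (max_le ?_ ?_)
  · exact (abs_sub u.1 v.1).trans (add_le_add (nm1 u) (nm1 v))
  · exact (abs_sub u.2.1 v.2.1).trans (add_le_add (nm2 u) (nm2 v))
  · exact (abs_sub u.2.2 v.2.2).trans (add_le_add (nm3 u) (nm3 v))

theorem nm_tri (x y z : Co) : Nm (y - z) ≤ Nm (x - y) + Nm (x - z) := by
  have h : y - z = (x - z) - (x - y) := by abel
  rw [h, add_comm]
  exact nm_sub _ _

/-- the kernel of the lattice sums -/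
def rr (a b : ℤ × ℤ) : ℝ := 1 / Real.sqrt (1 + max |(b.1 : ℝ) - a.1| |(b.2 : ℝ) - a.2|)

theorem rr_nonneg (a b : ℤ × ℤ) : 0 ≤ rr a b := by
  unfold rr
  positivity

theorem dk_nonneg {x : ℝ} (hx : 0 ≤ x) : 0 ≤ dk x := by
  unfold dk
  positivity

/-- one factor -/
theorem fac (T C Nb k : ℝ) (hT : 1 ≤ T) (hC : 1 ≤ C) (hNb : 1 ≤ T * Nb) (hk : 0 ≤ k)
    (hkC : k ≤ C * (1 + T * (2 * Nb))) :
    Real.sqrt (T / Nb) ≤ (1 + 3 * C) * T * (1 / Real.sqrt (1 + k)) := by
  have hT0 : 0 < T := by linarith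
  have hNb0 : 0 < Nb := by
    by_contra hcon
    push Not at hcon
    have := mul_nonpos_of_nonneg_of_nonpos hT0.le hcon
    linarith
  set C₂ := 1 + 3 * C with hC₂
  have hC₂1 : 1 ≤ C₂ := by linarith
  have h1 : 1 + k ≤ C₂ * (T * Nb) := by nlinarith
  have h2 : 1 + k ≤ C₂ ^ 2 * (T * Nb) := by nlinarith
  have h3 : Real.sqrt (1 + k) ≤ C₂ * Real.sqrt (T * Nb) := by
    have h4 := Real.sqrt_le_sqrt h2
    rwa [Real.sqrt_mul (by positivity), Real.sqrt_sq (by linarith)] at h4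
  have h5 : Real.sqrt (T / Nb) = T / Real.sqrt (T * Nb) := by
    have h6 : T / Nb = T ^ 2 / (T * Nb) := by
      field_simp
    rw [h6, Real.sqrt_div (by positivity), Real.sqrt_sq hT0.le]
  have h7 : 0 < Real.sqrt (T * Nb) := Real.sqrt_pos.2 (by positivity)
  have h8 : 0 < Real.sqrt (1 + k) := Real.sqrt_pos.2 (by positivity)
  rw [h5, mul_one_div, div_le_div_iff₀ h7 h8]
  calc T * Real.sqrt (1 + k) ≤ T * (C₂ * Real.sqrt (T * Nb)) :=
        mul_le_mul_of_nonneg_left h3 hT0.le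
    _ = C₂ * T * Real.sqrt (T * Nb) := by ring

/-- the factor of the smallest norm -/
theorem fac0 (τ N : ℝ) (hτ : 1 ≤ τ) (hN : 1 ≤ τ ^ 4 * N) : Real.sqrt (τ ^ 10 / N) ≤ τ ^ 7 := by
  have hτ0 : 0 < τ := by linarith
  have hN0 : 0 < N := by
    by_contra hcon
    push Not at hcon
    have := mul_nonpos_of_nonneg_of_nonpos (by positivity : 0 ≤ τ ^ 4) hcon
    linarith
  have h1 : τ ^ 10 / N ≤ (τ ^ 7) ^ 2 := by
    rw [div_le_iff₀ hN0]
    calc τ ^ 10 = τ ^ 10 * 1 := (mul_one _).symm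
      _ ≤ τ ^ 10 * (τ ^ 4 * N) := mul_le_mul_of_nonneg_left hN (by positivity)
      _ = (τ ^ 7) ^ 2 * N := by ring
  calc Real.sqrt (τ ^ 10 / N) ≤ Real.sqrt ((τ ^ 7) ^ 2) := Real.sqrt_le_sqrt h1
    _ = τ ^ 7 := Real.sqrt_sq (by positivity)

end UPB

open UPB

theorem upb (ker : KerStmt) (nbh : NbhStmt) (lat : LatStmt) (sec : SecStmt) (sol : SolStmt) :
    UpbStmt := by
  intro κ m hκ hm
  classical
  obtain ⟨C₁, hC₁, hker⟩ := ker κ hκ
  obtain ⟨C, hC, hnbh⟩ := nbh m hm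
  obtain ⟨CL, hCL, hlat⟩ := lat
  obtain ⟨τ₁, hτ₁, hsec⟩ := sec κ hκ
  obtain ⟨C₄, hC₄, hsol⟩ := sol m hm
  set C₂ : ℝ := 1 + 3 * C with hC₂
  set S₀ : ℝ := CL * (4 * C ^ 2) with hS₀
  refine ⟨C₁ ^ 3 * C₂ ^ 2 * (8 * C₄) * (3 * S₀ ^ 2), max τ₁ (10 ^ 4), by positivity,
    hτ₁.trans (le_max_left _ _), ?_⟩
  intro τ hτ Q P hFam Q₁ hQ₁ F hF
  have hτa : τ₁ ≤ τ := (le_max_left _ _).trans hτ
  have hτb : 10 ^ 4 ≤ τ := (le_max_right _ _).trans hτ
  have hτ1 : 1 ≤ τ := by linarith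
  have hτ0 : 0 < τ := by linarith
  set T : ℝ := τ ^ 10 with hTdef
  have hT1 : 1 ≤ T := one_le_pow₀ hτ1
  have hT0 : 0 < T := by linarith
  have hsqT : Real.sqrt T = τ ^ 5 := by
    rw [hTdef, show τ ^ 10 = (τ ^ 5) ^ 2 by ring, Real.sqrt_sq (by positivity)]
  set M : ℝ := (Q.card : ℝ) with hM
  -- the lattice sums
  have hρ : ∀ a ∈ Q, ∑ b ∈ Q, rr a b ≤ S₀ * τ ^ 15 := by
    intro a ha
    have h1 : 1 ≤ 2 * C * T := by nlinarith
    have h2 := (hlat Q a (2 * C * T) h1 (by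
      intro b hb
      obtain ⟨a1, a2, -⟩ := hnbh T hT1 Q P hFam a ha
      obtain ⟨b1, b2, -⟩ := hnbh T hT1 Q P hFam b hb
      constructor
      · exact (abs_sub _ _).trans (by linarith)
      · exact (abs_sub _ _).trans (by linarith))).2
    refine h2.trans ?_
    have h3 : Real.sqrt (2 * C * T) ≤ 2 * C * τ ^ 5 := by
      rw [Real.sqrt_mul (by positivity), hsqT]
      refine mul_le_mul_of_nonneg_right ?_ (by positivity)
      have h4 : 2 * C ≤ (2 * C) ^ 2 := by nlinarith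
      calc Real.sqrt (2 * C) ≤ Real.sqrt ((2 * C) ^ 2) := Real.sqrt_le_sqrt h4
        _ = 2 * C := Real.sqrt_sq (by positivity)
    calc CL * (2 * C * T * Real.sqrt (2 * C * T)) ≤ CL * (2 * C * T * (2 * C * τ ^ 5)) := by
          refine mul_le_mul_of_nonneg_left (mul_le_mul_of_nonneg_left h3 (by positivity)) hCL.le
      _ = S₀ * τ ^ 15 := by
          rw [hS₀, hTdef]
          ring
  -- the functions
  set Dk : Co → ℝ := fun d => dk (T * |Dc d| / Nm d) with hDk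
  have hDk0 : ∀ d, 0 ≤ Dk d := fun d => dk_nonneg (by
    have := nm_nonneg d
    positivity)
  set G : ℤ × ℤ → ℤ × ℤ → ℤ × ℤ → ℤ × ℤ → ℝ := fun a b c s =>
    if Far 0 κ τ (P s - P a) ∧ Far 1 κ τ (P s - P b) ∧ Far 2 κ τ (P s - P c) then
      Dk (P s - P a) * Dk (P s - P b) * Dk (P s - P c) else 0 with hG
  have hG0 : ∀ a b c s, 0 ≤ G a b c s := by
    intro a b c s
    rw [hG]
    simp only
    split_ifs
    · exact mul_nonneg (mul_nonneg (hDk0 _) (hDk0 _)) (hDk0 _)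
    · exact le_rfl
  set V : ℤ × ℤ → ℤ × ℤ → ℤ × ℤ → ℝ := fun a b c =>
    rr a b * rr a c + rr b a * rr b c + rr c a * rr c b with hV
  have hV0 : ∀ a b c, 0 ≤ V a b c := by
    intro a b c
    rw [hV]
    simp only
    have := rr_nonneg
    exact add_nonneg (add_nonneg (mul_nonneg (this _ _) (this _ _)) (mul_nonneg (this _ _) (this _ _)))
      (mul_nonneg (this _ _) (this _ _))
  set u : Fin 3 → ℤ × ℤ → ℤ × ℤ → ℝ := fun i s a =>
    if a ∈ F i s then |wt i κ T (P s - P a)| else 0 with hu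
  -- claim 2
  have claim2 : ∀ a b c, ∑ s ∈ Q₁, G a b c s ≤ 8 * C₄ := by
    intro a b c
    set p : Fin 3 → Co := ![P a, P b, P c] with hp
    set sg : (Fin 3 → Bool) → Fin 3 → ℝ := fun ε i => if ε i then 1 else -1 with hsg
    set Qe : (Fin 3 → Bool) → Finset (ℤ × ℤ) := fun ε => Q₁.filter fun s =>
      (∀ i, Far i κ τ (P s - p i)) ∧ ∀ i, Sec i (sg ε i) (P s - p i) with hQe
    have h1 : ∀ ε, ∑ s ∈ Qe ε, ∏ i, Dk (P s - p i) ≤ C₄ := by
      intro ε
      refine hsol T hT1 Q P hFam p (sg ε) ?_ (Qe ε) ?_ ?_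
      · intro i
        rw [hsg]
        simp only
        split_ifs
        · exact Or.inl rfl
        · exact Or.inr rfl
      · exact (Finset.filter_subset _ _).trans hQ₁
      · intro s hs i
        rw [hQe, Finset.mem_filter] at hs
        obtain ⟨hs1, hs2, hs3⟩ := hs
        refine ⟨hs3 i, (hs2 i).2.1, ?_⟩
        have h2 := (hs2 i).1
        have h3 : τ ≤ τ ^ 6 := by
          calc τ = τ ^ 1 := (pow_one τ).symm
            _ ≤ τ ^ 6 := pow_le_pow_right₀ hτ1 (by norm_num)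
        calc (10 : ℝ) ^ 4 ≤ τ ^ 6 * 1 := by linarith
          _ ≤ τ ^ 6 * (τ ^ 4 * Nm (P s - p i)) := mul_le_mul_of_nonneg_left h2 (by positivity)
          _ = T * Nm (P s - p i) := by
            rw [hTdef]
            ring
    have h2 : ∀ s ∈ Q₁, G a b c s ≤
        ∑ ε : Fin 3 → Bool, if s ∈ Qe ε then ∏ i, Dk (P s - p i) else 0 := by
      intro s hs
      have hnn : ∀ ε ∈ (Finset.univ : Finset (Fin 3 → Bool)),
          0 ≤ (if s ∈ Qe ε then ∏ i, Dk (P s - p i) else 0) := by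
        intro ε _
        split_ifs
        · exact Finset.prod_nonneg fun i _ => hDk0 _
        · exact le_rfl
      by_cases hfar : Far 0 κ τ (P s - P a) ∧ Far 1 κ τ (P s - P b) ∧ Far 2 κ τ (P s - P c)
      · have hfar' : ∀ i, Far i κ τ (P s - p i) := by
          intro i
          fin_cases i
          · exact hfar.1
          · exact hfar.2.1
          · exact hfar.2.2
        have hε : ∀ i, ∃ e : Bool, Sec i (if e then 1 else -1) (P s - p i) := by
          intro i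
          obtain ⟨σ, hσ, h3⟩ := hsec τ hτa i (P s - p i) (hfar' i)
          rcases hσ with rfl | rfl
          · exact ⟨true, by simpa using h3⟩
          · exact ⟨false, by simpa using h3⟩
        choose ε hε using hε
        have hmem : s ∈ Qe ε := by
          rw [hQe, Finset.mem_filter]
          exact ⟨hs, hfar', hε⟩
        have h4 := Finset.single_le_sum hnn (Finset.mem_univ ε)
        rw [if_pos hmem] at h4
        refine le_trans (le_of_eq ?_) h4
        rw [hG]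
        simp only
        rw [if_pos hfar, Fin.prod_univ_three]
        rfl
      · rw [hG]
        simp only
        rw [if_neg hfar]
        exact Finset.sum_nonneg hnn
    calc ∑ s ∈ Q₁, G a b c s
        ≤ ∑ s ∈ Q₁, ∑ ε : Fin 3 → Bool, (if s ∈ Qe ε then ∏ i, Dk (P s - p i) else 0) :=
          Finset.sum_le_sum h2
      _ = ∑ ε : Fin 3 → Bool, ∑ s ∈ Q₁, (if s ∈ Qe ε then ∏ i, Dk (P s - p i) else 0) :=
          Finset.sum_comm
      _ = ∑ ε : Fin 3 → Bool, ∑ s ∈ Qe ε, ∏ i, Dk (P s - p i) := by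
          refine Finset.sum_congr rfl fun ε _ => ?_
          rw [← Finset.sum_filter]
          congr 1
          ext s
          rw [Finset.mem_filter]
          constructor
          · exact fun h => h.2
          · intro h
            refine ⟨?_, h⟩
            rw [hQe, Finset.mem_filter] at h
            exact h.1
      _ ≤ ∑ _ε : Fin 3 → Bool, C₄ := Finset.sum_le_sum fun ε _ => h1 ε
      _ = 8 * C₄ := by
          rw [Finset.sum_const, nsmul_eq_mul, Finset.card_univ]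
          norm_num
  -- claim 1
  have claim1 : ∀ s ∈ Q₁, ∀ a ∈ Q, ∀ b ∈ Q, ∀ c ∈ Q, u 0 s a * u 1 s b * u 2 s c ≤
      C₁ ^ 3 * (C₂ ^ 2 * τ ^ 27) * (V a b c * G a b c s) := by
    intro s hs a ha b hb c hc
    have hK : 0 ≤ C₁ ^ 3 * (C₂ ^ 2 * τ ^ 27) * (V a b c * G a b c s) :=
      mul_nonneg (by positivity) (mul_nonneg (hV0 _ _ _) (hG0 _ _ _ _))
    by_cases hall : a ∈ F 0 s ∧ b ∈ F 1 s ∧ c ∈ F 2 s
    · obtain ⟨ha', hb', hc'⟩ := hall
      have fa := (hF 0 s hs).2 a ha'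
      have fb := (hF 1 s hs).2 b hb'
      have fc := (hF 2 s hs).2 c hc'
      rw [hu]
      simp only
      rw [if_pos ha', if_pos hb', if_pos hc']
      have hGe : G a b c s = Dk (P s - P a) * Dk (P s - P b) * Dk (P s - P c) := by
        rw [hG]
        simp only
        rw [if_pos ⟨fa, fb, fc⟩]
      set Na := Nm (P s - P a) with hNa
      set Nb := Nm (P s - P b) with hNb
      set Nc := Nm (P s - P c) with hNc
      have npos : ∀ N : ℝ, 1 ≤ τ ^ 4 * N → 0 < N ∧ 1 ≤ T * N := by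
        intro N hN
        have h0 : 0 < N := by
          by_contra hcon
          push Not at hcon
          have := mul_nonpos_of_nonneg_of_nonpos (by positivity : 0 ≤ τ ^ 4) hcon
          linarith
        refine ⟨h0, hN.trans ?_⟩
        rw [hTdef]
        exact mul_le_mul_of_nonneg_right (pow_le_pow_right₀ hτ1 (by norm_num)) h0.le
      obtain ⟨Na0, Na1⟩ := npos Na fa.1
      obtain ⟨Nb0, Nb1⟩ := npos Nb fb.1
      obtain ⟨Nc0, Nc1⟩ := npos Nc fc.1
      have ka := (hker T hT1 0 (P s - P a)).2 Na0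
      have kb := (hker T hT1 1 (P s - P b)).2 Nb0
      have kc := (hker T hT1 2 (P s - P c)).2 Nc0
      -- the product of the square roots
      have hfac : ∀ x ∈ Q, ∀ y ∈ Q, Nm (P s - P x) ≤ Nm (P s - P y) → 1 ≤ T * Nm (P s - P y) →
          Real.sqrt (T / Nm (P s - P y)) ≤ C₂ * T * rr x y := by
        intro x hx y hy hxy hy1
        obtain ⟨-, -, h3⟩ := hnbh T hT1 Q P hFam x hx
        obtain ⟨h4, h5⟩ := h3 y hy
        have h6 : Nm (P x - P y) ≤ 2 * Nm (P s - P y) := by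
          have := nm_tri (P s) (P x) (P y)
          linarith
        have h7 : C * (1 + T * Nm (P x - P y)) ≤ C * (1 + T * (2 * Nm (P s - P y))) := by
          have := mul_le_mul_of_nonneg_left h6 hT0.le
          nlinarith
        unfold rr
        refine fac T C _ _ hT1 hC hy1 ((abs_nonneg _).trans (le_max_left _ _)) (max_le ?_ ?_)
        · rw [abs_sub_comm]
          exact h4.trans h7
        · rw [abs_sub_comm]
          exact h5.trans h7
      have hr := rr_nonneg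
      have hCT : 0 ≤ C₂ * T := by positivity
      have hfin : ∀ A B D r₁ r₂ : ℝ, 0 ≤ A → 0 ≤ B → 0 ≤ D → 0 ≤ r₁ → 0 ≤ r₂ → A ≤ τ ^ 7 →
          B ≤ C₂ * T * r₁ → D ≤ C₂ * T * r₂ → A * B * D ≤ C₂ ^ 2 * τ ^ 27 * (r₁ * r₂) := by
        intro A B D r₁ r₂ hA hB hD hr₁ hr₂ h1 h2 h3
        calc A * B * D ≤ τ ^ 7 * (C₂ * T * r₁) * (C₂ * T * r₂) :=
              mul_le_mul (mul_le_mul h1 h2 hB (by positivity)) h3 hD
                (mul_nonneg (by positivity) (mul_nonneg hCT hr₁))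
          _ = C₂ ^ 2 * τ ^ 27 * (r₁ * r₂) := by
              rw [hTdef]
              ring
      have hsa := Real.sqrt_nonneg (T / Na)
      have hsb := Real.sqrt_nonneg (T / Nb)
      have hsc := Real.sqrt_nonneg (T / Nc)
      have hc27 : 0 ≤ C₂ ^ 2 * τ ^ 27 := by positivity
      have hprod : Real.sqrt (T / Na) * Real.sqrt (T / Nb) * Real.sqrt (T / Nc) ≤
          C₂ ^ 2 * τ ^ 27 * V a b c := by
        have hVe : V a b c = rr a b * rr a c + rr b a * rr b c + rr c a * rr c b := rfl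
        have p1 := mul_nonneg (hr a b) (hr a c)
        have p2 := mul_nonneg (hr b a) (hr b c)
        have p3 := mul_nonneg (hr c a) (hr c b)
        by_cases h1 : Na ≤ Nb ∧ Na ≤ Nc
        · have h2 := hfin _ _ _ _ _ hsa hsb hsc (hr a b) (hr a c) (fac0 τ Na hτ1 fa.1)
            (hfac a ha b hb h1.1 Nb1) (hfac a ha c hc h1.2 Nc1)
          refine h2.trans (mul_le_mul_of_nonneg_left ?_ hc27)
          rw [hVe]
          linarith
        · by_cases h2 : Nb ≤ Na ∧ Nb ≤ Nc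
          · have h3 := hfin _ _ _ _ _ hsb hsa hsc (hr b a) (hr b c) (fac0 τ Nb hτ1 fb.1)
              (hfac b hb a ha h2.1 Na1) (hfac b hb c hc h2.2 Nc1)
            rw [mul_comm (Real.sqrt (T / Na)) (Real.sqrt (T / Nb))]
            refine h3.trans (mul_le_mul_of_nonneg_left ?_ hc27)
            rw [hVe]
            linarith
          · have h4 : Nc ≤ Na ∧ Nc ≤ Nb := by
              by_contra hcon
              rcases le_total Na Nb with h5 | h5
              · rcases le_total Na Nc with h6 | h6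
                · exact h1 ⟨h5, h6⟩
                · exact hcon ⟨h6, h6.trans h5⟩
              · rcases le_total Nb Nc with h6 | h6
                · exact h2 ⟨h5, h6⟩
                · exact hcon ⟨h6.trans h5, h6⟩
            have h5 := hfin _ _ _ _ _ hsc hsa hsb (hr c a) (hr c b) (fac0 τ Nc hτ1 fc.1)
              (hfac c hc a ha h4.1 Na1) (hfac c hc b hb h4.2 Nb1)
            have h6 : Real.sqrt (T / Na) * Real.sqrt (T / Nb) * Real.sqrt (T / Nc) =
                Real.sqrt (T / Nc) * Real.sqrt (T / Na) * Real.sqrt (T / Nb) := by ring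
            rw [h6]
            refine h5.trans (mul_le_mul_of_nonneg_left ?_ hc27)
            rw [hVe]
            linarith
      have hGn : 0 ≤ Dk (P s - P a) * Dk (P s - P b) * Dk (P s - P c) :=
        mul_nonneg (mul_nonneg (hDk0 _) (hDk0 _)) (hDk0 _)
      calc |wt 0 κ T (P s - P a)| * |wt 1 κ T (P s - P b)| * |wt 2 κ T (P s - P c)|
          ≤ (C₁ * (Real.sqrt (T / Na) * Dk (P s - P a))) *
            (C₁ * (Real.sqrt (T / Nb) * Dk (P s - P b))) *
            (C₁ * (Real.sqrt (T / Nc) * Dk (P s - P c))) :=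
            mul_le_mul (mul_le_mul ka kb (abs_nonneg _)
              (mul_nonneg hC₁.le (mul_nonneg hsa (hDk0 _)))) kc (abs_nonneg _)
              (mul_nonneg (mul_nonneg hC₁.le (mul_nonneg hsa (hDk0 _)))
                (mul_nonneg hC₁.le (mul_nonneg hsb (hDk0 _))))
        _ = C₁ ^ 3 * ((Real.sqrt (T / Na) * Real.sqrt (T / Nb) * Real.sqrt (T / Nc)) *
            (Dk (P s - P a) * Dk (P s - P b) * Dk (P s - P c))) := by ring
        _ ≤ C₁ ^ 3 * ((C₂ ^ 2 * τ ^ 27 * V a b c) *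
            (Dk (P s - P a) * Dk (P s - P b) * Dk (P s - P c))) :=
            mul_le_mul_of_nonneg_left (mul_le_mul_of_nonneg_right hprod hGn) (by positivity)
        _ = C₁ ^ 3 * (C₂ ^ 2 * τ ^ 27) * (V a b c * G a b c s) := by
            rw [hGe]
            ring
    · have h0 : u 0 s a * u 1 s b * u 2 s c = 0 := by
        rw [hu]
        simp only
        by_cases h1 : a ∈ F 0 s
        · by_cases h2 : b ∈ F 1 s
          · have h3 : c ∉ F 2 s := fun h => hall ⟨h1, h2, h⟩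
            rw [if_neg h3, mul_zero]
          · rw [if_neg h2, mul_zero, zero_mul]
        · rw [if_neg h1, zero_mul, zero_mul]
      rw [h0]
      exact hK
  -- claim 3
  have claim3 : ∑ a ∈ Q, ∑ b ∈ Q, ∑ c ∈ Q, V a b c ≤ 3 * (M * (S₀ * τ ^ 15) ^ 2) := by
    have h1 : ∑ a ∈ Q, (∑ b ∈ Q, rr a b) * (∑ c ∈ Q, rr a c) ≤ M * (S₀ * τ ^ 15) ^ 2 := by
      have h2 : ∀ a ∈ Q, (∑ b ∈ Q, rr a b) * (∑ c ∈ Q, rr a c) ≤ (S₀ * τ ^ 15) ^ 2 := by
        intro a ha
        rw [sq]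
        exact mul_le_mul (hρ a ha) (hρ a ha) (Finset.sum_nonneg fun b _ => rr_nonneg a b)
          ((Finset.sum_nonneg fun b _ => rr_nonneg a b).trans (hρ a ha))
      refine (Finset.sum_le_sum h2).trans (le_of_eq ?_)
      rw [Finset.sum_const, nsmul_eq_mul]
    have e1 : ∑ a ∈ Q, ∑ b ∈ Q, ∑ c ∈ Q, rr a b * rr a c =
        ∑ a ∈ Q, (∑ b ∈ Q, rr a b) * (∑ c ∈ Q, rr a c) := by
      refine Finset.sum_congr rfl fun a _ => ?_
      rw [Finset.sum_mul_sum]
    have e2 : ∑ a ∈ Q, ∑ b ∈ Q, ∑ c ∈ Q, rr b a * rr b c =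
        ∑ a ∈ Q, (∑ b ∈ Q, rr a b) * (∑ c ∈ Q, rr a c) := by
      rw [Finset.sum_comm]
      exact e1
    have e3 : ∑ a ∈ Q, ∑ b ∈ Q, ∑ c ∈ Q, rr c a * rr c b =
        ∑ a ∈ Q, (∑ b ∈ Q, rr a b) * (∑ c ∈ Q, rr a c) := by
      have h2 : ∀ a ∈ Q, ∑ b ∈ Q, ∑ c ∈ Q, rr c a * rr c b = ∑ c ∈ Q, ∑ b ∈ Q, rr c a * rr c b :=
        fun a _ => Finset.sum_comm
      rw [Finset.sum_congr rfl h2, Finset.sum_comm]
      exact e1
    have h3 : ∑ a ∈ Q, ∑ b ∈ Q, ∑ c ∈ Q, V a b c =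
        ∑ a ∈ Q, ∑ b ∈ Q, ∑ c ∈ Q, rr a b * rr a c + ∑ a ∈ Q, ∑ b ∈ Q, ∑ c ∈ Q, rr b a * rr b c +
        ∑ a ∈ Q, ∑ b ∈ Q, ∑ c ∈ Q, rr c a * rr c b := by
      simp only [hV, Finset.sum_add_distrib]
    rw [h3, e1, e2, e3]
    linarith
  -- the end
  have hsum : ∀ s ∈ Q₁, ∏ i, (∑ s' ∈ F i s, |wt i κ T (P s - P s')|) =
      ∑ a ∈ Q, ∑ b ∈ Q, ∑ c ∈ Q, u 0 s a * u 1 s b * u 2 s c := by
    intro s hs
    have h1 : ∀ i, ∑ s' ∈ F i s, |wt i κ T (P s - P s')| = ∑ a ∈ Q, u i s a := by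
      intro i
      rw [hu]
      simp only
      rw [← Finset.sum_filter]
      congr 1
      ext a
      rw [Finset.mem_filter]
      exact ⟨fun h => ⟨(hF i s hs).1 h, h⟩, fun h => h.2⟩
    rw [Fin.prod_univ_three, h1, h1, h1, Finset.sum_mul_sum, Finset.sum_mul]
    refine Finset.sum_congr rfl fun a _ => ?_
    rw [Finset.sum_mul_sum]
  have hend : ∑ s ∈ Q₁, ∏ i, (∑ s' ∈ F i s, |wt i κ T (P s - P s')|) ≤
      C₁ ^ 3 * (C₂ ^ 2 * τ ^ 27) * ((8 * C₄) * (3 * (M * (S₀ * τ ^ 15) ^ 2))) := by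
    have hK0 : 0 ≤ C₁ ^ 3 * (C₂ ^ 2 * τ ^ 27) := by positivity
    calc ∑ s ∈ Q₁, ∏ i, (∑ s' ∈ F i s, |wt i κ T (P s - P s')|)
        = ∑ s ∈ Q₁, ∑ a ∈ Q, ∑ b ∈ Q, ∑ c ∈ Q, u 0 s a * u 1 s b * u 2 s c :=
          Finset.sum_congr rfl hsum
      _ ≤ ∑ s ∈ Q₁, ∑ a ∈ Q, ∑ b ∈ Q, ∑ c ∈ Q,
            C₁ ^ 3 * (C₂ ^ 2 * τ ^ 27) * (V a b c * G a b c s) :=
          Finset.sum_le_sum fun s hs => Finset.sum_le_sum fun a ha => Finset.sum_le_sum fun b hb =>
            Finset.sum_le_sum fun c hc => claim1 s hs a ha b hb c hc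
      _ = ∑ a ∈ Q, ∑ b ∈ Q, ∑ c ∈ Q, ∑ s ∈ Q₁,
            C₁ ^ 3 * (C₂ ^ 2 * τ ^ 27) * (V a b c * G a b c s) := by
          rw [Finset.sum_comm]
          refine Finset.sum_congr rfl fun a _ => ?_
          rw [Finset.sum_comm]
          refine Finset.sum_congr rfl fun b _ => ?_
          rw [Finset.sum_comm]
      _ = ∑ a ∈ Q, ∑ b ∈ Q, ∑ c ∈ Q,
            C₁ ^ 3 * (C₂ ^ 2 * τ ^ 27) * (V a b c * ∑ s ∈ Q₁, G a b c s) := by
          simp only [Finset.mul_sum]
      _ ≤ ∑ a ∈ Q, ∑ b ∈ Q, ∑ c ∈ Q,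
            C₁ ^ 3 * (C₂ ^ 2 * τ ^ 27) * (V a b c * (8 * C₄)) :=
          Finset.sum_le_sum fun a _ => Finset.sum_le_sum fun b _ => Finset.sum_le_sum fun c _ =>
            mul_le_mul_of_nonneg_left (mul_le_mul_of_nonneg_left (claim2 a b c) (hV0 a b c)) hK0
      _ = C₁ ^ 3 * (C₂ ^ 2 * τ ^ 27) * ((8 * C₄) * ∑ a ∈ Q, ∑ b ∈ Q, ∑ c ∈ Q, V a b c) := by
          simp only [Finset.mul_sum]
          refine Finset.sum_congr rfl fun a _ => Finset.sum_congr rfl fun b _ =>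
            Finset.sum_congr rfl fun c _ => ?_
          ring
      _ ≤ C₁ ^ 3 * (C₂ ^ 2 * τ ^ 27) * ((8 * C₄) * (3 * (M * (S₀ * τ ^ 15) ^ 2))) :=
          mul_le_mul_of_nonneg_left (mul_le_mul_of_nonneg_left claim3 (by positivity)) hK0
  refine hend.trans (le_of_eq ?_)
  ring

end

end Pool.Agent.CRT.H41
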